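import Pool.Agent.Helper89.A8.Stmts

/-!
# Translates of a Hecke eigenvector and flags (helper43)

Matrices over `F_2` are coded by four natural numbers (their columns).  The translate `act g w` of
a vector `w` fixed by the unitriangular group depends only on the code `fc` of the flag of `g`.
Sums of translates are coded by natural numbers (bit masks), so that linear relations between
the translates can be checked by the kernel.
-/

set_option autoImplicit false

namespace Pool.Agent.A8

open Matrix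

namespace Flag

/-- code of a vector -/
def ec (v : V4) : ℕ := (v 0).val + 2 * (v 1).val + 4 * (v 2).val + 8 * (v 3).val

theorem ec_add : ∀ v w : V4, ec (v + w) = ec v ^^^ ec w := by decide +kernel

theorem ec_inj : ∀ v w : V4, ec v = ec w → v = w := by decide +kernel

theorem ec_bit : ∀ (v : V4) (k : Fin 4), (ec v).testBit k = decide (v k = 1) := by decide +kernel

/-- the product of a matrix (given by the codes of its columns) with a vector -/
def ap (c0 c1 c2 c3 v : ℕ) : ℕ :=
  (((if v.testBit 0 then c0 else 0) ^^^ (if v.testBit 1 then c1 else 0)) ^^^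
    (if v.testBit 2 then c2 else 0)) ^^^ (if v.testBit 3 then c3 else 0)

/-- codes of matrices (four columns) -/
structure Mt where
  a : ℕ
  b : ℕ
  c : ℕ
  d : ℕ

/-- product of codes -/
def Mt.mul (x y : Mt) : Mt :=
  ⟨ap x.a x.b x.c x.d y.a, ap x.a x.b x.c x.d y.b, ap x.a x.b x.c x.d y.c,
    ap x.a x.b x.c x.d y.d⟩

/-- a column -/
def col (g : Gam) (j : Fin 4) : V4 := fun i => g.1 i j

/-- the code of an element of the group -/
def enc (g : Gam) : Mt := ⟨ec (col g 0), ec (col g 1), ec (col g 2), ec (col g 3)⟩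

theorem ec_smul (c : ZMod 2) (x : V4) : ec (c • x) = if c = 1 then ec x else 0 := by
  have h : c = 0 ∨ c = 1 := by revert c; decide
  rcases h with rfl | rfl
  · rw [zero_smul, if_neg (by decide)]; rfl
  · rw [one_smul, if_pos rfl]

theorem ec_lin (x0 x1 x2 x3 v : V4) : ec (v 0 • x0 + v 1 • x1 + v 2 • x2 + v 3 • x3) =
    ap (ec x0) (ec x1) (ec x2) (ec x3) (ec v) := by
  have h0 : (ec v).testBit 0 = decide (v 0 = 1) := ec_bit v 0
  have h1 : (ec v).testBit 1 = decide (v 1 = 1) := ec_bit v 1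
  have h2 : (ec v).testBit 2 = decide (v 2 = 1) := ec_bit v 2
  have h3 : (ec v).testBit 3 = decide (v 3 = 1) := ec_bit v 3
  rw [ec_add, ec_add, ec_add, ec_smul, ec_smul, ec_smul, ec_smul, ap, h0, h1, h2, h3]
  simp only [decide_eq_true_eq]

theorem col_mul (g h : Gam) (j : Fin 4) : col (g * h) j =
    col h j 0 • col g 0 + col h j 1 • col g 1 + col h j 2 • col g 2 + col h j 3 • col g 3 := by
  funext i
  simp only [col, Units.val_mul, Matrix.mul_apply, Fin.sum_univ_four, Pi.add_apply, Pi.smul_apply,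
    smul_eq_mul]
  ring

theorem enc_mul (g h : Gam) : enc (g * h) = (enc g).mul (enc h) := by
  simp only [enc, Mt.mul, col_mul, ec_lin]

/-- the code of the flag of a matrix -/
def fc (m : Mt) : ℕ :=
  m.a + 16 * min m.b (m.b ^^^ m.a) +
    256 * min (min m.c (m.c ^^^ m.a)) (min (m.c ^^^ m.b) ((m.c ^^^ m.b) ^^^ m.a))

theorem ec_lt (v : V4) : ec v < 16 := by
  revert v; decide +kernel

theorem xor_lt {a b : ℕ} (ha : a < 16) (hb : b < 16) : a ^^^ b < 16 :=
  Nat.xor_lt_two_pow (n := 4) ha hb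

theorem fc_split {x y : Mt} (hx : x.a < 16 ∧ x.b < 16 ∧ x.c < 16)
    (hy : y.a < 16 ∧ y.b < 16 ∧ y.c < 16) (h : fc x = fc y) : x.a = y.a ∧
      min x.b (x.b ^^^ x.a) = min y.b (y.b ^^^ y.a) ∧
      min (min x.c (x.c ^^^ x.a)) (min (x.c ^^^ x.b) ((x.c ^^^ x.b) ^^^ x.a)) =
      min (min y.c (y.c ^^^ y.a)) (min (y.c ^^^ y.b) ((y.c ^^^ y.b) ^^^ y.a)) := by
  have h1 : min x.b (x.b ^^^ x.a) < 16 := lt_of_le_of_lt (min_le_left _ _) hx.2.1
  have h2 : min y.b (y.b ^^^ y.a) < 16 := lt_of_le_of_lt (min_le_left _ _) hy.2.1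
  unfold fc at h
  generalize min x.b (x.b ^^^ x.a) = p at *
  generalize min y.b (y.b ^^^ y.a) = q at *
  generalize min (min x.c (x.c ^^^ x.a)) (min (x.c ^^^ x.b) ((x.c ^^^ x.b) ^^^ x.a)) = r at *
  generalize min (min y.c (y.c ^^^ y.a)) (min (y.c ^^^ y.b) ((y.c ^^^ y.b) ^^^ y.a)) = s at *
  have h3 := hx.1
  have h4 := hy.1
  omega

theorem fc_lt (g : Gam) : fc (enc g) < 4096 := by
  have h1 : min (enc g).b ((enc g).b ^^^ (enc g).a) < 16 :=
    lt_of_le_of_lt (min_le_left _ _) (ec_lt _)
  have h2 : min (min (enc g).c ((enc g).c ^^^ (enc g).a))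
      (min ((enc g).c ^^^ (enc g).b) (((enc g).c ^^^ (enc g).b) ^^^ (enc g).a)) < 16 :=
    lt_of_le_of_lt (min_le_left _ _) (lt_of_le_of_lt (min_le_left _ _) (ec_lt _))
  have h3 : (enc g).a < 16 := ec_lt _
  unfold fc
  omega

/-! ### the unitriangular group -/

theorem mulVec_inj (g : Gam) {x y : V4} (h : g.1 *ᵥ x = g.1 *ᵥ y) : x = y := by
  have h1 : (g⁻¹).1 * g.1 = 1 := by
    rw [← Units.val_mul, inv_mul_cancel, Units.val_one]
  have h2 := congrArg (fun z => (g⁻¹).1 *ᵥ z) h
  simpa only [Matrix.mulVec_mulVec, h1, Matrix.one_mulVec] using h2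

theorem mulVec_eq (g : Gam) (x : V4) :
    g.1 *ᵥ x = x 0 • col g 0 + x 1 • col g 1 + x 2 • col g 2 + x 3 • col g 3 := by
  funext i
  simp only [Matrix.mulVec, dotProduct, Fin.sum_univ_four, col, Pi.add_apply, Pi.smul_apply,
    smul_eq_mul]
  ring

theorem mulVec_col (g b : Gam) (j : Fin 4) : g.1 *ᵥ col b j = col (g * b) j := by
  rw [mulVec_eq, col_mul]

/-- the unitriangular matrix with given entries -/
def um (a b c d e f : ZMod 2) : M4 := !![1, a, b, d; 0, 1, c, e; 0, 0, 1, f; 0, 0, 0, 1]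

/-- a power with exponent in `ZMod 2` -/
def pw (x : Gam) (c : ZMod 2) : Gam := if c = 0 then 1 else x

/-- commutator word -/
def cw (x y : Gam) : Gam := x * y * x * y

/-- product of root elements -/
def up (a b c d e f : ZMod 2) : Gam :=
  pw (cw (cw gt x1) gg) d * (pw (cw x1 gg) e * (pw gg f * (pw (cw gt x1) b * (pw x1 c * pw gt a))))

theorem up_val : ∀ a b c d e f : ZMod 2, (up a b c d e f).1 = um a b c d e f := by
  decide +kernel

section act

variable {X : Type*} [AddCommGroup X] [Module RG X]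

theorem act_pw {w : X} {x : Gam} (h : act x w = w) (c : ZMod 2) : act (pw x c) w = w := by
  unfold pw
  split_ifs
  · exact act_one w
  · exact h

theorem act_mul_fix {w : X} {x y : Gam} (h : act x w = w) (h' : act y w = w) :
    act (x * y) w = w := by rw [act_mul, h', h]

theorem act_up {w : X} (hw : ∀ i, act (xr i) w = w) (a b c d e f : ZMod 2) :
    act (up a b c d e f) w = w := by
  have h0 : act gt w = w := hw 0
  have h1 : act x1 w = w := hw 1
  have h2 : act gg w = w := hw 2
  have hc : ∀ {x y : Gam}, act x w = w → act y w = w → act (cw x y) w = w := by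
    intro x y hx hy
    exact act_mul_fix (act_mul_fix (act_mul_fix hx hy) hx) hy
  exact act_mul_fix (act_pw (hc (hc h0 h1) h2) d) (act_mul_fix (act_pw (hc h1 h2) e)
    (act_mul_fix (act_pw h2 f) (act_mul_fix (act_pw (hc h0 h1) b)
    (act_mul_fix (act_pw h1 c) (act_pw h0 a)))))

theorem z01 (c : ZMod 2) : c = 0 ∨ c = 1 := by revert c; decide

theorem act_eq_of_fc {w : X} (hw : ∀ i, act (xr i) w = w) {g h : Gam}
    (hgh : fc (enc g) = fc (enc h)) : act g w = act h w := by
  obtain ⟨h0, h1, h2⟩ := fc_split ⟨ec_lt _, ec_lt _, ec_lt _⟩ ⟨ec_lt _, ec_lt _, ec_lt _⟩ hgh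
  -- columns of `h` in terms of the columns of `g`
  have e0 : col h 0 = col g 0 := (ec_inj _ _ h0).symm
  change min (ec (col g 1)) (ec (col g 1) ^^^ ec (col g 0)) =
    min (ec (col h 1)) (ec (col h 1) ^^^ ec (col h 0)) at h1
  rw [← ec_add, ← ec_add] at h1
  have e1 : ∃ a : ZMod 2, col h 1 = col g 1 + a • col g 0 := by
    have hg : ∃ a : ZMod 2, min (ec (col g 1)) (ec (col g 1 + col g 0)) =
        ec (col g 1 + a • col g 0) := by
      rcases min_choice (ec (col g 1)) (ec (col g 1 + col g 0)) with h | h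
      · exact ⟨0, by rw [h, zero_smul, add_zero]⟩
      · exact ⟨1, by rw [h, one_smul]⟩
    have hh : ∃ a : ZMod 2, min (ec (col h 1)) (ec (col h 1 + col h 0)) =
        ec (col h 1 + a • col g 0) := by
      rcases min_choice (ec (col h 1)) (ec (col h 1 + col h 0)) with h | h
      · exact ⟨0, by rw [h, zero_smul, add_zero]⟩
      · exact ⟨1, by rw [h, one_smul, e0]⟩
    obtain ⟨a, ha⟩ := hg
    obtain ⟨a', ha'⟩ := hh
    rw [ha, ha'] at h1
    have h3 := ec_inj _ _ h1
    refine ⟨a - a', ?_⟩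
    rw [sub_smul, ← add_sub_assoc, h3]
    abel
  obtain ⟨a, e1⟩ := e1
  change min (min (ec (col g 2)) (ec (col g 2) ^^^ ec (col g 0)))
      (min (ec (col g 2) ^^^ ec (col g 1)) ((ec (col g 2) ^^^ ec (col g 1)) ^^^ ec (col g 0))) =
    min (min (ec (col h 2)) (ec (col h 2) ^^^ ec (col h 0)))
      (min (ec (col h 2) ^^^ ec (col h 1)) ((ec (col h 2) ^^^ ec (col h 1)) ^^^ ec (col h 0)))
    at h2
  simp only [← ec_add] at h2
  have e2 : ∃ b c : ZMod 2, col h 2 = col g 2 + b • col g 0 + c • col g 1 := by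
    have key : ∀ g : Gam, ∃ b c : ZMod 2, min (min (ec (col g 2)) (ec (col g 2 + col g 0)))
        (min (ec (col g 2 + col g 1)) (ec (col g 2 + col g 1 + col g 0))) =
        ec (col g 2 + b • col g 0 + c • col g 1) := by
      intro g
      rcases min_choice (min (ec (col g 2)) (ec (col g 2 + col g 0)))
        (min (ec (col g 2 + col g 1)) (ec (col g 2 + col g 1 + col g 0))) with h | h <;> rw [h]
      · rcases min_choice (ec (col g 2)) (ec (col g 2 + col g 0)) with h | h <;> rw [h]
        · exact ⟨0, 0, by rw [zero_smul, zero_smul, add_zero, add_zero]⟩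
        · exact ⟨1, 0, by rw [zero_smul, one_smul, add_zero]⟩
      · rcases min_choice (ec (col g 2 + col g 1)) (ec (col g 2 + col g 1 + col g 0)) with h | h <;>
          rw [h]
        · exact ⟨0, 1, by rw [zero_smul, one_smul, add_zero]⟩
        · exact ⟨1, 1, by rw [one_smul, one_smul, add_right_comm]⟩
    obtain ⟨b, c, hbc⟩ := key g
    obtain ⟨b', c', hbc'⟩ := key h
    rw [hbc, hbc'] at h2
    have h3 := ec_inj _ _ h2
    rw [e0, e1] at h3
    refine ⟨b - b' - c' * a, c - c', ?_⟩
    have h4 : col h 2 = col g 2 + b • col g 0 + c • col g 1 - b' • col g 0 -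
        c' • (col g 1 + a • col g 0) := by
      rw [h3]; abel
    rw [h4, sub_smul, sub_smul, sub_smul, mul_smul, smul_add]
    abel
  obtain ⟨b, c, e2⟩ := e2
  -- the quotient is unitriangular
  set u : Gam := g⁻¹ * h with hu
  have hgu : g * u = h := by rw [hu, mul_inv_cancel_left]
  have c0 : col u 0 = ![1, 0, 0, 0] := by
    apply mulVec_inj g
    rw [mulVec_col, hgu, mulVec_eq, e0]
    simp
  have c1 : col u 1 = ![a, 1, 0, 0] := by
    apply mulVec_inj g
    rw [mulVec_col, hgu, mulVec_eq, e1]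
    simp [add_comm]
  have c2 : col u 2 = ![b, c, 1, 0] := by
    apply mulVec_inj g
    rw [mulVec_col, hgu, mulVec_eq, e2]
    simp
    abel
  have c3 : u.1 3 3 = 1 := by
    rcases z01 (u.1 3 3) with h3 | h3
    · exfalso
      have h4 : u.1 * (u⁻¹).1 = 1 := by rw [← Units.val_mul, mul_inv_cancel, Units.val_one]
      have h5 := congrFun (congrFun h4 3) 3
      have d0 : u.1 3 0 = 0 := congrFun c0 3
      have d1 : u.1 3 1 = 0 := congrFun c1 3
      have d2 : u.1 3 2 = 0 := congrFun c2 3
      rw [Matrix.mul_apply, Fin.sum_univ_four, d0, d1, d2, h3] at h5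
      simp at h5
    · exact h3
  have hval : u.1 = um a b c (u.1 0 3) (u.1 1 3) (u.1 2 3) := by
    ext i j
    have q0 := congrFun c0 i
    have q1 := congrFun c1 i
    have q2 := congrFun c2 i
    simp only [col] at q0 q1 q2
    fin_cases j
    · simp only [Fin.zero_eta, Fin.isValue] at *
      rw [q0]
      fin_cases i <;> rfl
    · simp only [Fin.mk_one, Fin.isValue] at *
      rw [q1]
      fin_cases i <;> rfl
    · simp only [Fin.reduceFinMk, Fin.isValue] at *
      rw [q2]
      fin_cases i <;> rfl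
    · fin_cases i
      · rfl
      · rfl
      · rfl
      · exact c3
  have hup : u = up a b c (u.1 0 3) (u.1 1 3) (u.1 2 3) := by
    apply Units.ext
    rw [up_val]
    exact hval
  rw [← hgu, act_mul, hup, act_up hw]

/-! ### translates and masks -/

/-- the translate of `w` belonging to the code of a flag -/
noncomputable def FF (w : X) (n : ℕ) : X := by
  classical
  exact if h : ∃ g : Gam, fc (enc g) = n then act h.choose w else 0

theorem FF_eq {w : X} (hw : ∀ i, act (xr i) w = w) (g : Gam) : FF w (fc (enc g)) = act g w := by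
  have h : ∃ g' : Gam, fc (enc g') = fc (enc g) := ⟨g, rfl⟩
  rw [FF, dif_pos h]
  exact act_eq_of_fc hw h.choose_spec

/-- the sum coded by a mask -/
noncomputable def SS (w : X) (m : ℕ) : X :=
  ∑ i ∈ Finset.range 4096, if m.testBit i then FF w i else 0

theorem SS_xor (w : X) (m n : ℕ) : SS w (m ^^^ n) = SS w m + SS w n := by
  unfold SS
  rw [← Finset.sum_add_distrib]
  apply Finset.sum_congr rfl
  intro i _
  rw [Nat.testBit_xor]
  cases m.testBit i <;> cases n.testBit i <;> simp [add_self]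

theorem SS_zero (w : X) : SS w 0 = 0 := by
  unfold SS
  simp

theorem SS_one {w : X} (hw : ∀ i, act (xr i) w = w) (g : Gam) :
    SS w (2 ^ fc (enc g)) = act g w := by
  unfold SS
  simp only [Nat.testBit_two_pow]
  rw [Finset.sum_eq_single (fc (enc g))]
  · simp [FF_eq hw]
  · intro b _ hb
    rw [if_neg]
    simpa using hb.symm
  · intro h
    exact absurd (Finset.mem_range.2 (fc_lt g)) h

end act

/-! ### words -/

/-- the generators -/
def genG : ℕ → Gam
  | 0 => gt
  | 1 => x1
  | 2 => gg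
  | 3 => gr
  | 4 => gq
  | _ => gs

/-- their codes -/
def genM : ℕ → Mt
  | 0 => ⟨1, 3, 4, 8⟩
  | 1 => ⟨1, 2, 6, 8⟩
  | 2 => ⟨1, 2, 4, 12⟩
  | 3 => ⟨2, 3, 4, 8⟩
  | 4 => ⟨1, 4, 6, 8⟩
  | _ => ⟨1, 2, 8, 12⟩

theorem Mt_ext {x y : Mt} (h0 : x.a = y.a) (h1 : x.b = y.b) (h2 : x.c = y.c) (h3 : x.d = y.d) :
    x = y := by
  cases x; cases y; simp_all

theorem enc_gen (k : ℕ) : enc (genG k) = genM k := by
  unfold genG genM
  split <;> apply Mt_ext <;> decide +kernel

/-- a word -/
def wG : List ℕ → Gam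
  | [] => 1
  | k :: l => genG k * wG l

/-- its code -/
def wM : List ℕ → Mt
  | [] => ⟨1, 2, 4, 8⟩
  | k :: l => (genM k).mul (wM l)

theorem enc_one : enc 1 = ⟨1, 2, 4, 8⟩ := by
  apply Mt_ext <;> decide +kernel

theorem enc_w (l : List ℕ) : enc (wG l) = wM l := by
  induction l with
  | nil => exact enc_one
  | cons k l ih => rw [wG, wM, enc_mul, enc_gen, ih]

/-- the element of order 15 -/
def gz : Gam := x1 * (gr * (gq * gs))

theorem gz_order : orderOf gz = 15 := by
  have h15 : gz ^ 15 = 1 := by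
    apply Units.ext
    decide +kernel
  have h5 : gz ^ 5 ≠ 1 := by
    intro h
    have := congrArg (fun g : Gam => g.1) h
    revert this
    decide +kernel
  have h3 : gz ^ 3 ≠ 1 := by
    intro h
    have := congrArg (fun g : Gam => g.1) h
    revert this
    decide +kernel
  refine orderOf_eq_of_pow_and_pow_div_prime (by norm_num) h15 ?_
  intro p hp hd
  have h1 : p ∣ 3 * 5 := hd
  rcases (hp.dvd_mul).1 h1 with h | h
  · have : p = 3 := (Nat.prime_dvd_prime_iff_eq hp (by norm_num)).1 h
    subst this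
    exact h5
  · have : p = 5 := (Nat.prime_dvd_prime_iff_eq hp (by norm_num)).1 h
    subst this
    exact h3

/-- code of `gz` -/
def zM : Mt := wM [1, 3, 4, 5]

theorem enc_gz : enc gz = zM := by
  have : gz = wG [1, 3, 4, 5] := by
    simp [gz, wG, genG]
  rw [this, enc_w]
  rfl

/-- the three elements `g3 i` -/
def g3M : ℕ → Mt
  | 0 => ⟨2, 3, 4, 8⟩
  | 1 => ⟨1, 4, 6, 8⟩
  | _ => ⟨1, 2, 8, 12⟩

theorem enc_g3 (i : Fin 3) : enc (g3 i) = g3M i := by
  fin_cases i <;> apply Mt_ext <;> decide +kernel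

/-- the mask of the sum over the first `n` translates under powers of `gz` -/
def orbM (n : ℕ) (h g : Mt) : ℕ :=
  match n with
  | 0 => 0
  | n + 1 => 2 ^ fc (h.mul g) ^^^ orbM n (h.mul zM) g

/-- the mask of a pencil relation -/
def penM (J : Bool) (i : ℕ) (g : Mt) : ℕ :=
  let g1 := g.mul (g3M i)
  if J then (2 ^ fc g ^^^ 2 ^ fc g1) ^^^ 2 ^ fc (g1.mul (g3M i)) else 2 ^ fc g ^^^ 2 ^ fc g1

/-- the mask of a list of relations: `(i, _, g)` with `i < 3` is a pencil relation at the word
`g`, otherwise the orbit relation for the words `h`, `g` -/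
def relM (J : ℕ → Bool) : List (ℕ × List ℕ × List ℕ) → ℕ
  | [] => 0
  | (i, h, g) :: L =>
    (if i < 3 then penM (J i) i (wM g) else orbM 15 (wM h) (wM g)) ^^^ relM J L

section act

variable {X : Type*} [AddCommGroup X] [Module RG X]

theorem SS_orbM {w : X} (hw : ∀ i, act (xr i) w = w) (n : ℕ) (h g : Gam) :
    SS w (orbM n (enc h) (enc g)) = act h (∑ k ∈ Finset.range n, act (gz ^ k * g) w) := by
  induction n generalizing h with
  | zero => rw [orbM, SS_zero, Finset.sum_range_zero, act_zero]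
  | succ n ih =>
    rw [orbM, SS_xor, ← enc_gz, ← enc_mul, ← enc_mul, ih, SS_one hw, Finset.sum_range_succ',
      act_add, act_mul h gz, add_comm, pow_zero, one_mul, ← act_mul h g]
    congr 2
    rw [act_sum]
    apply Finset.sum_congr rfl
    intro k _
    rw [← act_mul, pow_succ', mul_assoc]

theorem SS_orb0 {w : X} (hw : ∀ i, act (xr i) w = w) (hX : Free15 X) (h g : Gam) :
    SS w (orbM 15 (enc h) (enc g)) = 0 := by
  rw [SS_orbM hw]
  have h15 : gz ^ 15 = 1 := gz_order ▸ pow_orderOf_eq_one gz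
  have h1 : act gz (∑ k ∈ Finset.range 15, act (gz ^ k * g) w) =
      ∑ k ∈ Finset.range 15, act (gz ^ k * g) w := by
    rw [act_sum]
    have e : ∀ k, act gz (act (gz ^ k * g) w) = act (gz ^ (k + 1) * g) w := by
      intro k
      rw [← act_mul, ← mul_assoc, ← pow_succ']
    simp only [e]
    have e1 := Finset.sum_range_succ (fun k => act (gz ^ k * g) w) 15
    have e2 := Finset.sum_range_succ' (fun k => act (gz ^ k * g) w) 15
    rw [e1, h15, ← pow_zero gz] at e2
    exact (add_right_cancel e2).symm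
  rw [hX gz gz_order _ h1, act_zero]

theorem SS_pen {J : Fin 3 → Bool} {w : X} (hw : HV J w) (i : Fin 3) (g : Gam) :
    SS w (penM (J i) i (enc g)) = 0 := by
  have e1 : (enc g).mul (g3M i) = enc (g * g3 i) := by rw [enc_mul, enc_g3]
  have e2 : (enc (g * g3 i)).mul (g3M i) = enc (g * g3 i * g3 i) := by
    rw [enc_mul (g * g3 i), enc_g3]
  unfold penM
  simp only [e1, e2]
  split_ifs with hJ
  · rw [SS_xor, SS_xor, SS_one hw.fix, SS_one hw.fix, SS_one hw.fix]
    have h := congrArg (act g) (hw.eig0 i hJ)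
    rw [act_add, act_add, act_zero, ← act_mul, ← act_mul] at h
    rw [mul_assoc g, ← pow_two]
    exact h
  · rw [SS_xor, SS_one hw.fix, SS_one hw.fix, act_mul, hw.eig1 i (by simpa using hJ), add_self]

/-- the main tool: relations kill a Hecke vector -/
theorem kill (J : Fin 3 → Bool) (J' : ℕ → Bool) (hJ : ∀ i : Fin 3, J i = J' i)
    (L : List (ℕ × List ℕ × List ℕ)) (hL : relM J' L = 2 ^ fc ⟨1, 2, 4, 8⟩) (hX : Free15 X)
    (w : X) : ¬ HV J w := by
  intro hw
  have key : ∀ L : List (ℕ × List ℕ × List ℕ), SS w (relM J' L) = 0 := by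
    intro L
    induction L with
    | nil => exact SS_zero w
    | cons r L ih =>
      obtain ⟨i, h, g⟩ := r
      rw [relM, SS_xor, ih, add_zero]
      split_ifs with hi
      · rw [← enc_w]
        have := SS_pen hw ⟨i, hi⟩ (wG g)
        rw [hJ] at this
        exact this
      · rw [← enc_w, ← enc_w]
        exact SS_orb0 hw.fix hX _ _
  have h := key L
  rw [hL, ← enc_one, SS_one hw.fix, act_one] at h
  exact hw.ne h

end act

end Flag

end Pool.Agent.A8
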