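import Pool.Agent.Helper89.A8.Stmts
import Pool.Agent.Helper89.A8.GTools
import Pool.Agent.Helper89.A8.GFix

/-!
# G16 : the summary of the structure of `K`
-/

set_option autoImplicit false

namespace Pool.Agent.A8

open Matrix
open scoped commutatorElement

section g16
variable {G : Type} [Group G]

private theorem g16_dlG_inj : Function.Injective dlG := by
  intro a b h
  have h1 : sig a = sig b := (MulAut.conj gc).injective h
  have h2 := congrArg sig h1
  rwa [sig_sig, sig_sig] at h2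

private theorem g16_ker (π : G →* Gam) : (dlG.comp π).ker = π.ker := by
  ext x
  rw [MonoidHom.mem_ker, MonoidHom.mem_ker, MonoidHom.comp_apply]
  constructor
  · intro h
    exact g16_dlG_inj (by rw [h, map_one])
  · intro h
    rw [h, map_one]

private theorem g16_ZK (π : G →* Gam) : ZK (dlG.comp π) = ZK π := by
  rw [ZK, CK, g16_ker, ZK, CK]

private theorem g16_comm {H K : Subgroup G} (h : ⁅H, K⁆ = ⊥) {x y : G} (hx : x ∈ H) (hy : y ∈ K) :
    x * y = y * x := by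
  have h1 := Subgroup.commutator_mem_commutator hx hy
  rw [h, Subgroup.mem_bot] at h1
  exact commutatorElement_eq_one_iff_mul_comm.1 h1

private theorem g16_aZ {π : G →* Gam} (hdec : π.ker = Kt π .v ⊔ Kt π .d ⊔ Kt π .l ⊔ ZK π)
    (hcv : ⁅Kt π .v, Kt π .d⁆ = ⊥) (hAD : ⁅Kt π .v, Kt π .l⁆ ≤ Kt π .d)
    (hAL : ⁅⁅Kt π .v, Kt π .l⁆, Kt π .l⁆ = ⊥) : ⁅Kt π .v, Kt π .l⁆ ≤ ZK π := by
  haveI := Kt_normal π .v
  haveI := Kt_normal π .l
  have hAv : ⁅Kt π .v, Kt π .l⁆ ≤ Kt π .v := Subgroup.commutator_le_left _ _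
  intro a ha
  rw [mem_ZK]
  refine ⟨?_, Kt_le π .v (hAv ha)⟩
  have hle : π.ker ≤ Subgroup.centralizer {a} := by
    rw [hdec]
    refine sup_le (sup_le (sup_le ?_ ?_) ?_) ?_
    · intro y hy
      rw [Subgroup.mem_centralizer_singleton_iff]
      exact g16_comm hcv hy (hAD ha)
    · intro y hy
      rw [Subgroup.mem_centralizer_singleton_iff]
      exact (g16_comm hcv (hAv ha) hy).symm
    · intro y hy
      rw [Subgroup.mem_centralizer_singleton_iff]
      exact (g16_comm hAL ha hy).symm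
    · intro y hy
      rw [Subgroup.mem_centralizer_singleton_iff]
      exact ((mem_ZK.1 hy).1 a (Kt_le π .v (hAv ha))).symm
  intro y hy
  exact Subgroup.mem_centralizer_singleton_iff.1 (hle hy)

end g16

theorem bSTR (h1 : S_DEC) (h2 : S_CV) (h3 : S_AD) (h4 : S_LL) (h5 : S_AL) (h6 : S_J)
    (h7 : S_DUALG) (h8 : S_ABEL) (h9 : S_ZEL) : S_STR := by
  intro G _ _ π hπ
  obtain ⟨hπ', hv, hd, hl⟩ := h7 G π hπ
  haveI := Kt_normal π .v
  haveI := Kt_normal π .l
  haveI := Kt_normal π .d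
  have hdec := h1 G π hπ
  have hcv := h2 G π hπ
  have haD := h3 G π hπ
  have haZ := g16_aZ hdec hcv haD (h5 G π hπ)
  have haD' := h3 G _ hπ'
  have haZ' := g16_aZ (h1 G _ hπ') (h2 G _ hπ') haD' (h5 G _ hπ')
  rw [g16_ZK] at haZ'
  rw [hv, hl] at haZ'
  rw [hv, hl, hd] at haD'
  have hj := h6 G π hπ
  have hJv : ⁅Kt π .v, Kt π .v⁆ ≤ Kt π .v := Subgroup.commutator_le_left _ _
  have hvl : ⁅⁅Kt π .v, Kt π .l⁆, Kt π .v⁆ = ⊥ := by
    rw [Subgroup.commutator_eq_bot_iff_le_centralizer]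
    intro a ha
    rw [Subgroup.mem_centralizer_iff]
    intro y hy
    exact (mem_ZK.1 (haZ ha)).1 y (Kt_le π .v hy)
  have hjl : ⁅⁅Kt π .v, Kt π .v⁆, Kt π .l⁆ = ⊥ := by
    apply Subgroup.commutator_commutator_eq_bot_of_rotate
    · exact hvl
    · rw [Subgroup.commutator_comm (Kt π .l) (Kt π .v)]
      exact hvl
  have hjd : ⁅⁅Kt π .v, Kt π .v⁆, Kt π .d⁆ = ⊥ := by
    rw [eq_bot_iff, ← hcv]
    exact Subgroup.commutator_mono hJv le_rfl
  have hjv : ⁅⁅Kt π .v, Kt π .v⁆, Kt π .v⁆ ≤ ⁅Kt π .v, Kt π .l⁆ := by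
    rw [Subgroup.commutator_le]
    intro x hx y hy
    obtain ⟨l, hl', d, hd', rfl⟩ := Subgroup.mem_sup_of_normal_left.1 (hj hx)
    have h10 : d * y = y * d := (g16_comm hcv hy hd').symm
    have h11 : ⁅l * d, y⁆ = ⁅l, y⁆ := by
      rw [commutatorElement_def, commutatorElement_def, _root_.mul_inv_rev]
      calc l * d * y * (d⁻¹ * l⁻¹) * y⁻¹ = l * (d * y) * d⁻¹ * l⁻¹ * y⁻¹ := by group
        _ = l * (y * d) * d⁻¹ * l⁻¹ * y⁻¹ := by rw [h10]
        _ = l * y * l⁻¹ * y⁻¹ := by group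
    rw [h11, Subgroup.commutator_comm]
    exact Subgroup.commutator_mem_commutator hl' hy
  refine ⟨hdec, hcv, haZ, haZ', haD, haD', h4 G π hπ, hj, hjl, hjd, hjv, ?_, h9 G π hπ⟩
  refine h8 G π hπ _ inferInstance (hJv.trans (Kt_le π .v)) ?_
  intro x hx y hy
  obtain ⟨l, hl', d, hd', rfl⟩ := Subgroup.mem_sup_of_normal_left.1 (hj hy)
  rw [← mul_assoc, g16_comm hjl hx hl', mul_assoc, g16_comm hjd hx hd', mul_assoc]

end Pool.Agent.A8
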