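import Pool.Agent.Helper89.A8.Stmts
import Pool.Agent.Helper89.A8.GTools
import Pool.Agent.Helper89.A8.GFix

/-!
# G18 : the structure of `K` modulo `Kl C_K(Kv)`
-/

set_option autoImplicit false

namespace Pool.Agent.A8

open Matrix
open scoped commutatorElement

section g18
variable {G : Type} [Group G] {π : G →* Gam}

/-- preimage of a submodule -/
private def g18_pre {X : Subgroup G} {M : Type} [AddCommGroup M] [Module RG M] {φ : G → M}
    (h : HomOn π X φ) (N : Submodule RG M) : Subgroup G where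
  carrier := {x | x ∈ X ∧ φ x ∈ N}
  one_mem' := ⟨X.one_mem, by rw [h.map_one]; exact N.zero_mem⟩
  mul_mem' := by
    rintro a b ⟨ha, ha'⟩ ⟨hb, hb'⟩
    exact ⟨X.mul_mem ha hb, by rw [h.mul a ha b hb]; exact N.add_mem ha' hb'⟩
  inv_mem' := by
    rintro a ⟨ha, ha'⟩
    exact ⟨X.inv_mem ha, by rw [h.map_inv ha]; exact ha'⟩

private theorem g18_mem_pre {X : Subgroup G} {M : Type} [AddCommGroup M] [Module RG M] {φ : G → M}
    (h : HomOn π X φ) (N : Submodule RG M) {x : G} : x ∈ g18_pre h N ↔ x ∈ X ∧ φ x ∈ N := Iff.rfl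

private theorem g18_pre_normal {X : Subgroup G} {M : Type} [AddCommGroup M] [Module RG M]
    {φ : G → M} (h : HomOn π X φ) (hX : X.Normal) (N : Submodule RG M) :
    (g18_pre h N).Normal := by
  constructor
  rintro x ⟨hx, hx'⟩ g
  exact ⟨hX.conj_mem x hx g, by rw [h.conj g x hx]; exact act_mem _ hx'⟩

/-- a section covered by a local subgroup -/
private theorem g18_sec (hsurj : Function.Surjective π) {X : Subgroup G} {M : Type}
    [AddCommGroup M] [Module RG M] {φ : G → M} (h : HomOn π X φ) {N P : Submodule RG M}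
    (hNP : N ⋖ P) {D : Subgroup G} (hDn : D.Normal)
    (hDU : ∀ x ∈ D, x ∈ X ∧ φ x ∈ P) (hDW : ¬ ∀ x ∈ D, φ x ∈ N) {a : Ty} {θ : G → Md a}
    (hθ : HomOn π D θ) (hθs : ∀ m, ∃ x ∈ D, θ x = m) (hθk : ∀ x ∈ D, θ x = 0 ↔ φ x ∈ N) :
    SecIso a N P := by
  classical
  have hDX : D ≤ X := fun x hx => (hDU x hx).1
  have hD : HomOn π D φ := h.mono hDX
  -- the submodule `φ(D)`
  let Q : Submodule RG M := mkSub
    { carrier := {m | ∃ x ∈ D, φ x = m}
      zero_mem' := ⟨1, D.one_mem, hD.map_one⟩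
      add_mem' := by
        rintro _ _ ⟨x, hx, rfl⟩ ⟨y, hy, rfl⟩
        exact ⟨x * y, D.mul_mem hx hy, hD.mul x hx y hy⟩
      neg_mem' := by
        rintro _ ⟨x, hx, rfl⟩
        exact ⟨x, hx, by rw [neg_eq]⟩ }
    (by
      rintro g _ ⟨x, hx, rfl⟩
      obtain ⟨y, rfl⟩ := hsurj g
      exact ⟨y * x * y⁻¹, hDn.conj_mem x hx y, hD.conj y x hx⟩)
  have hQ : ∀ m, m ∈ Q ↔ ∃ x ∈ D, φ x = m := fun m => Iff.rfl
  have hNQ : N ⊔ Q = P := by
    rcases hNP.eq_or_eq (c := N ⊔ Q) le_sup_left (sup_le hNP.le (by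
      intro m hm
      obtain ⟨x, hx, rfl⟩ := (hQ m).1 hm
      exact (hDU x hx).2)) with h1 | h1
    · exfalso
      apply hDW
      intro x hx
      rw [← h1]
      exact (le_sup_right : Q ≤ N ⊔ Q) ((hQ _).2 ⟨x, hx, rfl⟩)
    · exact h1
  have hex : ∀ p : P, ∃ x ∈ D, (p : M) + φ x ∈ N := by
    intro p
    have hp : (p : M) ∈ N ⊔ Q := hNQ.symm.le p.2
    obtain ⟨n, hn, q, hq, hnq⟩ := Submodule.mem_sup.1 hp
    obtain ⟨x, hx, rfl⟩ := (hQ q).1 hq
    refine ⟨x, hx, ?_⟩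
    rw [← hnq, add_assoc, add_self, add_zero]
    exact hn
  choose δ hδ hδ' using hex
  have key : ∀ (p : P) (x : G), x ∈ D → (p : M) + φ x ∈ N → θ (δ p) = θ x := by
    intro p x hx hpx
    have h2 : φ (δ p * x⁻¹) ∈ N := by
      rw [hD.map_mul_inv (hδ p) hx]
      have h3 := N.add_mem (hδ' p) hpx
      have e : (p : M) + φ (δ p) + ((p : M) + φ x) = φ (δ p) + φ x := by
        rw [add_add_add_comm, add_self, zero_add]
      rwa [e] at h3
    have h4 := (hθk _ (D.mul_mem (hδ p) (D.inv_mem hx))).2 h2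
    rw [hθ.map_mul_inv (hδ p) hx] at h4
    rw [eq_comm, ← neg_eq (θ x), eq_comm]
    exact eq_neg_of_add_eq_zero_left h4
  let f : P →ₗ[RG] Md a := mkLin
    { toFun := fun p => θ (δ p)
      map_zero' := by
        rw [key 0 1 D.one_mem (by rw [hD.map_one]; simp), hθ.map_one]
      map_add' := by
        intro p q
        rw [← hθ.mul _ (hδ p) _ (hδ q)]
        refine key (p + q) _ (D.mul_mem (hδ p) (hδ q)) ?_
        rw [hD.mul _ (hδ p) _ (hδ q), Submodule.coe_add, add_add_add_comm]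
        exact N.add_mem (hδ' p) (hδ' q) }
    (by
      intro g p
      obtain ⟨y, rfl⟩ := hsurj g
      change θ (δ (act (π y) p)) = act (π y) (θ (δ p))
      rw [← hθ.conj y _ (hδ p)]
      refine key _ _ (hDn.conj_mem _ (hδ p) y) ?_
      rw [act_coe, hD.conj y _ (hδ p), ← act_add]
      exact act_mem _ (hδ' p))
  have hf : ∀ p, f p = θ (δ p) := fun p => rfl
  refine ⟨f, ?_, ?_⟩
  · intro m
    obtain ⟨x, hx, rfl⟩ := hθs m
    refine ⟨⟨φ x, (hDU x hx).2⟩, ?_⟩
    rw [hf]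
    refine key _ x hx ?_
    change φ x + φ x ∈ N
    rw [add_self]
    exact N.zero_mem
  · intro p
    rw [hf, hθk _ (hδ p)]
    constructor
    · intro h5
      have h6 := N.add_mem (hδ' p) h5
      rwa [add_assoc, add_self, add_zero] at h6
    · intro h5
      have h6 := N.add_mem h5 (hδ' p)
      rwa [← add_assoc, add_self, zero_add] at h6

end g18

theorem bL7 (h1 : S_STR) (h2 : S_MTG) (h3 : S_COV) (h4 : S_QM) (h5 : S_M3C) (h6 : S_INV)
    (h7 : S_ABEL) : S_L7 := by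
  intro G _ _ π hπ
  have st := h1 G π hπ
  obtain ⟨hM1, -, -⟩ := h2 G π hπ
  have hvn : (Kt π .v).Normal := Kt_normal π .v
  have hln : (Kt π .l).Normal := Kt_normal π .l
  have hdn : (Kt π .d).Normal := Kt_normal π .d
  have hCn : (CK π (Kt π .v)).Normal := CK_normal π hvn
  have hTn : (Kt π .l ⊔ CK π (Kt π .v)).Normal := Subgroup.sup_normal _ _
  have hTk : Kt π .l ⊔ CK π (Kt π .v) ≤ π.ker := sup_le (Kt_le π .l) (CK_le π _)
  have hKn : π.ker.Normal := ker_normal π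
  have hRn : (rjT π .v (Kt π .v) ⊥).Normal := rjT_normal π .v hvn ⊥
  set C := CK π (Kt π .v) with hCdef
  set T := Kt π .l ⊔ C with hTdef
  have hdC : Kt π .d ≤ C := by
    intro x hx
    rw [hCdef, mem_CK]
    refine ⟨fun y hy => ?_, Kt_le π .d hx⟩
    have h10 := Subgroup.commutator_mem_commutator hy hx
    rw [st.cv, Subgroup.mem_bot, commutatorElement_eq_one_iff_mul_comm] at h10
    exact h10
  have hzC : ZK π ≤ C := ZK_le_CK π (Kt_le π .v)
  have hKT : π.ker ≤ Kt π .v ⊔ T := by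
    rw [st.dec]
    refine sup_le (sup_le (sup_le le_sup_left ?_) ?_) ?_
    · exact hdC.trans (le_sup_right.trans le_sup_right)
    · exact le_sup_left.trans le_sup_right
    · exact hzC.trans (le_sup_right.trans le_sup_right)
  have hJT : ⁅Kt π .v, Kt π .v⁆ ≤ T := st.j.trans (sup_le le_sup_left (hdC.trans le_sup_right))
  -- pass to `G / T`
  let q := QuotientGroup.mk' T
  have hq : ∀ z : G, z ∈ T ↔ q z = 1 := by
    intro z
    rw [← MonoidHom.mem_ker, QuotientGroup.ker_mk']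
  have hcv : ∀ x ∈ Kt π .v, ∀ y ∈ Kt π .v, q x * q y = q y * q x := by
    intro x hx y hy
    have h10 := hJT (Subgroup.commutator_mem_commutator hx hy)
    rw [hq, map_commutatorElement, commutatorElement_eq_one_iff_mul_comm] at h10
    exact h10
  have hqv : ∀ x ∈ π.ker, ∃ v ∈ Kt π .v, q x = q v := by
    intro x hx
    obtain ⟨v, hv, t, ht, rfl⟩ := Subgroup.mem_sup_of_normal_left.1 (hKT hx)
    exact ⟨v, hv, by rw [map_mul, (hq t).1 ht, mul_one]⟩
  have hcK : ∀ x ∈ π.ker, ∀ y ∈ π.ker, q x * q y = q y * q x := by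
    intro x hx y hy
    obtain ⟨v, hv, e⟩ := hqv x hx
    obtain ⟨w, hw, e'⟩ := hqv y hy
    rw [e, e']
    exact hcv v hv w hw
  let S : Subgroup G :=
    { carrier := {x | x ∈ π.ker ∧ q x * q x = 1}
      one_mem' := ⟨π.ker.one_mem, by simp⟩
      mul_mem' := by
        rintro a b ⟨ha, ha'⟩ ⟨hb, hb'⟩
        refine ⟨π.ker.mul_mem ha hb, ?_⟩
        have e := hcK a ha b hb
        rw [map_mul]
        calc q a * q b * (q a * q b) = q a * (q b * q a) * q b := by group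
          _ = (q a * q a) * (q b * q b) := by rw [← e]; group
          _ = 1 := by rw [ha', hb', one_mul]
      inv_mem' := by
        rintro a ⟨ha, ha'⟩
        refine ⟨π.ker.inv_mem ha, ?_⟩
        rw [map_inv, ← _root_.mul_inv_rev, ha', inv_one] }
  have hS : ∀ x, x ∈ S ↔ x ∈ π.ker ∧ q x * q x = 1 := fun x => Iff.rfl
  have hvS : Kt π .v ≤ S := by
    refine sSup_le ?_
    rintro R ⟨φ, hR⟩
    rw [h6 G π hπ R .v φ hR, Subgroup.closure_le]
    rintro x ⟨hx, hxx⟩
    exact (hS x).2 ⟨hR.le hx, by rw [← map_mul, hxx, map_one]⟩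
  have hsq : ∀ x ∈ π.ker, x * x ∈ T := by
    intro x hx
    obtain ⟨v, hv, e⟩ := hqv x hx
    rw [hq, map_mul, e]
    exact ((hS v).1 (hvS hv)).2
  have hcomm : ⁅π.ker, π.ker⁆ ≤ T := by
    rw [Subgroup.commutator_le]
    intro x hx y hy
    rw [hq, map_commutatorElement, commutatorElement_eq_one_iff_mul_comm]
    exact hcK x hx y hy
  obtain ⟨M, _, _, _, φ, hφ, hF⟩ := h4 G π hπ π.ker T hKn hTn hTk le_rfl hsq hcomm
  have hall : AllC .v M := by
    intro N P hNP
    have hWn := g18_pre_normal hφ.toHomOn hKn N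
    have hUn := g18_pre_normal hφ.toHomOn hKn P
    have hTW : T ≤ g18_pre hφ.toHomOn N := fun t ht =>
      ⟨hTk ht, by rw [(hφ.ker t (hTk ht)).2 ht]; exact N.zero_mem⟩
    have hUW : ¬ g18_pre hφ.toHomOn P ≤ g18_pre hφ.toHomOn N := by
      intro hc
      apply hNP.lt.not_ge
      intro m hm
      obtain ⟨x, hx, rfl⟩ := hφ.surj m
      exact (hc (show x ∈ g18_pre hφ.toHomOn P from ⟨hx, hm⟩)).2
    obtain ⟨D, hDn, hDU, hDW, -, hD⟩ := h3 G π hπ _ _ hUn hWn (fun x hx => hx.1) hUW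
    rcases hD with ⟨a, θ, hL, hk⟩ | hz
    · have ha : a = .v := by
        cases a
        · rfl
        · exact absurd (hL.le_Kt.trans (hdC.trans (le_sup_right.trans hTW))) hDW
        · exact absurd (hL.le_Kt.trans (le_sup_left.trans hTW)) hDW
      subst ha
      refine g18_sec hπ.surj hφ.toHomOn hNP hDn (fun x hx => hDU hx) ?_ hL.toHomOn hL.surj ?_
      · intro hc
        exact hDW fun x hx => ⟨(hDU hx).1, hc x hx⟩
      · intro x hx
        rw [hk x hx, g18_mem_pre]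
        exact ⟨fun h => h.2, fun h => ⟨(hDU hx).1, h⟩⟩
    · exact absurd (hz.trans (hzC.trans (le_sup_right.trans hTW))) hDW
  have hHg := h5 .v (by decide) M hall
  have hg : GHg π .v π.ker T := by
    intro x hx hx'
    rw [← hφ.ker x hx]
    apply hHg
    intro f
    exact hx' _ (hφ.toHomOn.comp f) fun t ht => by
      rw [(hφ.ker t (hTk ht)).2 ht, map_zero]
  have hle : rjT π .v (Kt π .v) ⊥ ≤ T := by
    intro x hx
    refine hg x (Kt_le π .v hx.1) fun ψ hψ _ => ?_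
    exact hx.2 ψ (hψ.mono (Kt_le π .v)) fun t ht => by
      rw [Subgroup.mem_bot] at ht
      rw [ht, hψ.map_one]
  have hcl : ∀ x ∈ rjT π .v (Kt π .v) ⊥, ∀ y ∈ T, x * y = y * x := by
    intro x hx y hy
    obtain ⟨l, hl, c, hc, rfl⟩ := Subgroup.mem_sup_of_normal_left.1 hy
    have h10 := Subgroup.commutator_mem_commutator hx hl
    rw [hM1, Subgroup.mem_bot, commutatorElement_eq_one_iff_mul_comm] at h10
    have h11 : x * c = c * x := (mem_CK.1 hc).1 x hx.1
    rw [← mul_assoc, h10, mul_assoc, h11, mul_assoc]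
  have hab : ∀ x ∈ rjT π .v (Kt π .v) ⊥, ∀ y ∈ rjT π .v (Kt π .v) ⊥, x * y = y * x :=
    fun x hx y hy => hcl x hx y (hle hy)
  refine ⟨hle, hg, hab, h7 G π hπ _ hRn ((rjT_le π .v _ _).trans (Kt_le π .v)) hab, hcl, ?_⟩
  rw [Subgroup.commutator_le]
  intro x hx v hv
  obtain ⟨l, hl, c, hc, rfl⟩ := Subgroup.mem_sup_of_normal_left.1 (hle hx)
  have h11 : v * c = c * v := (mem_CK.1 hc).1 v hv
  have e : ⁅l * c, v⁆ = ⁅l, v⁆ := by
    rw [commutatorElement_def, commutatorElement_def, _root_.mul_inv_rev]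
    calc l * c * v * (c⁻¹ * l⁻¹) * v⁻¹ = l * (c * v) * c⁻¹ * l⁻¹ * v⁻¹ := by group
      _ = l * (v * c) * c⁻¹ * l⁻¹ * v⁻¹ := by rw [h11]
      _ = l * v * l⁻¹ * v⁻¹ := by group
  rw [e, Subgroup.commutator_comm]
  exact Subgroup.commutator_mem_commutator hl hv

end Pool.Agent.A8
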