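import Pool.Agent.Helper89.A8.Stmts
import Pool.Agent.Helper89.A8.GTools
import Pool.Agent.Helper89.A8.GFix

/-!
# G25 : theorem (A)
-/

set_option autoImplicit false

namespace Pool.Agent.A8

open Matrix
open scoped commutatorElement

section g25

private theorem g25_V0 : ∀ v : V4, gs.1 *ᵥ v = v → v 2 = 0 ∧ v 3 = 0 := by decide +kernel

private theorem g25_V1 : ∀ v : V4, gs.1 *ᵥ v = v → v + gr.1 *ᵥ v + (gr ^ 2).1 *ᵥ v = 0 := by
  decide +kernel

private theorem g25_V2 : ∀ v : V4, gs.1 *ᵥ v = v → lv ![1, 0, 0, 0, 0, 0] v = 0 := by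
  decide +kernel

private theorem g25_L : ∀ l : V6, actL gs.1 l = l → actL gr.1 l = l := by decide +kernel

private theorem g25_zero : ∀ v : MV, mlv 0 v = 0 := by
  have h : ∀ v : V4, lv 0 v = 0 := by decide +kernel
  exact h

private theorem g25_perf : ∀ l : V6, (∀ v : V4, lv l v = 0) → l = 0 := by decide +kernel

variable {G : Type} [Group G] [Finite G] {π : G →* Gam}

/-- the property of theorem (A) is inherited by products of normal subgroups -/
private theorem g25_sup (hC : S_COP) (hπ : Cfg π) {s y : G} (hs : s ^ 3 = 1)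
    {A B : Subgroup G} (hA : A.Normal) (hB : B.Normal) (hAk : A ≤ π.ker)
    (hPA : ∀ x ∈ A, x * s = s * x → y * x = x * y)
    (hPB : ∀ x ∈ B, x * s = s * x → y * x = x * y) :
    ∀ x ∈ A ⊔ B, x * s = s * x → y * x = x * y := by
  intro x hx hxs
  obtain ⟨a, ha, b, hb, rfl⟩ := Subgroup.mem_sup_of_normal_left.1 hx
  have h1 : a⁻¹ * (s * a * s⁻¹) = b * (s * b * s⁻¹)⁻¹ := by
    have : s * a * s⁻¹ * (s * b * s⁻¹) = a * b := by
      rw [show s * a * s⁻¹ * (s * b * s⁻¹) = s * (a * b) * s⁻¹ by group, ← hxs]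
      group
    rw [inv_mul_eq_iff_eq_mul, ← mul_assoc, eq_mul_inv_iff_mul_eq, this]
  have h2 : a⁻¹ * (s * a * s⁻¹) ∈ A ⊓ B := by
    refine ⟨A.mul_mem (A.inv_mem ha) (hA.conj_mem a ha s), ?_⟩
    change _ ∈ B
    rw [h1]
    exact B.mul_mem hb (B.inv_mem (hB.conj_mem b hb s))
  obtain ⟨n, hn, hn'⟩ := cop_cyc hC (N := A ⊓ B) (hπ.pg (inf_le_left.trans hAk))
    (m := 3) (by decide) hs (fun n hn => ⟨hA.conj_mem n hn.1 s, hB.conj_mem n hn.2 s⟩) h2
  have h3 := hPA (a * n) (A.mul_mem ha hn.1) hn'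
  have h4 : n⁻¹ * b * s = s * (n⁻¹ * b) := by
    have e : n⁻¹ * b = (a * n)⁻¹ * (a * b) := by group
    have e2 : (a * n)⁻¹ * s = s * (a * n)⁻¹ := by
      rw [inv_mul_eq_iff_eq_mul, ← mul_assoc, hn', mul_assoc, mul_inv_cancel, mul_one]
    rw [e, mul_assoc, hxs, ← mul_assoc, e2, mul_assoc]
  have h5 := hPB (n⁻¹ * b) (B.mul_mem (B.inv_mem hn.2) hb) h4
  have e : a * b = (a * n) * (n⁻¹ * b) := by group
  rw [e, ← mul_assoc, h3, mul_assoc, h5, ← mul_assoc]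

/-- it suffices to consider locals -/
private theorem g25_red (hC : S_COP) (hπ : Cfg π) {s y : G} (hs : s ^ 3 = 1)
    (hR : ∀ (R : Subgroup G) (φ : G → Md .v), Loc π R .v φ →
      ∀ x ∈ R, x * s = s * x → y * x = x * y) :
    ∀ x ∈ Kt π .v, x * s = s * x → y * x = x * y := by
  classical
  obtain ⟨X, hX⟩ := Set.Finite.exists_maximal
    (s := {X : Subgroup G | X.Normal ∧ X ≤ π.ker ∧ ∀ x ∈ X, x * s = s * x → y * x = x * y})
    (Set.toFinite _)
    ⟨⊥, inferInstance, bot_le, by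
      intro x hx _
      rw [Subgroup.mem_bot] at hx
      rw [hx, mul_one, one_mul]⟩
  obtain ⟨⟨hXn, hXk, hXP⟩, hmax⟩ := hX
  have hle : Kt π .v ≤ X := by
    refine sSup_le ?_
    rintro R ⟨φ, hRφ⟩
    have hn : (X ⊔ R).Normal := by
      haveI := hXn
      haveI := hRφ.normal
      infer_instance
    have := hmax (y := X ⊔ R) ⟨hn, sup_le hXk hRφ.le,
      g25_sup hC hπ hs hXn hRφ.normal hXk hXP (hR R φ hRφ)⟩ le_sup_left
    exact le_sup_right.trans this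
  intro x hx
  exact hXP x (hle hx)

end g25

theorem bTHA (h1 : S_STR) (h2 : S_L7) (h3 : S_MTG) (h4 : S_BETAG) (h5 : S_STD2) (h6 : S_COP)
    (h7 : S_UQ) : S_THA := by
  intro G _ _ π hπ s r τ hF
  have st := h1 G π hπ
  have st0 := h2 G π hπ
  obtain ⟨-, hM, -⟩ := h3 G π hπ
  obtain ⟨hyT, hyψ⟩ := h4 G π hπ s r τ hF
  have hvn : (Kt π .v).Normal := Kt_normal π .v
  have hln : (Kt π .l).Normal := Kt_normal π .l
  have hCn : (CK π (Kt π .v)).Normal := CK_normal π hvn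
  have hTn : (Kt π .l ⊔ CK π (Kt π .v)).Normal := Subgroup.sup_normal _ _
  have hAn : (⁅Kt π .v, Kt π .l⁆).Normal := inferInstance
  have hTk : Kt π .l ⊔ CK π (Kt π .v) ≤ π.ker := sup_le (Kt_le π .l) (CK_le π _)
  set C := CK π (Kt π .v) with hCdef
  set T := Kt π .l ⊔ C with hTdef
  set A := ⁅Kt π .v, Kt π .l⁆ with hAdef
  set y := τ * τ with hy
  have hAk : A ≤ π.ker := st.aZ.trans (ZK_le π)
  -- central elements
  have hAc : ∀ a ∈ A, ∀ k ∈ π.ker, k * a = a * k := fun a ha => (mem_ZK.1 (st.aZ ha)).1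
  have hA2 : ∀ a ∈ A, a * a = 1 := fun a ha => st.z2 a (st.aZ ha)
  -- commutators of `Kv` and `T` lie in `A`
  have hcomA : ∀ x ∈ Kt π .v, ∀ t ∈ T, ⁅x, t⁆ ∈ A := by
    intro x hx t ht
    obtain ⟨l, hl, c, hc, rfl⟩ := Subgroup.mem_sup_of_normal_left.1 ht
    have hxc : x * c = c * x := (mem_CK.1 hc).1 x hx
    have e : ⁅x, l * c⁆ = ⁅x, l⁆ := by
      rw [commutatorElement_def, commutatorElement_def, _root_.mul_inv_rev]
      calc x * (l * c) * x⁻¹ * (c⁻¹ * l⁻¹) = x * l * (c * x⁻¹) * c⁻¹ * l⁻¹ := by group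
        _ = x * l * (x⁻¹ * c) * c⁻¹ * l⁻¹ := by
            rw [show c * x⁻¹ = x⁻¹ * c by
              rw [eq_inv_mul_iff_mul_eq, ← mul_assoc, hxc, mul_assoc, mul_inv_cancel, mul_one]]
        _ = x * l * x⁻¹ * l⁻¹ := by group
    rw [e]
    exact Subgroup.commutator_mem_commutator hx hl
  have hcomhom : ∀ x ∈ Kt π .v, ∀ x' ∈ Kt π .v, ⁅x * x', y⁆ = ⁅x, y⁆ * ⁅x', y⁆ := by
    intro x hx x' hx'
    have hm := hcomA x' hx' y hyT
    have hc1 := hAc _ hm x (Kt_le π .v hx)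
    have hc2 := hAc _ (hcomA x hx y hyT) _ (hAk hm)
    have e : ⁅x * x', y⁆ = x * ⁅x', y⁆ * x⁻¹ * ⁅x, y⁆ := by
      rw [commutatorElement_def, commutatorElement_def, commutatorElement_def]
      group
    rw [e, hc1, mul_inv_cancel_right, hc2]
  -- relations of the frame
  have hys : y * s = s * y := by rw [hy, mul_assoc, hF.τs, ← mul_assoc, hF.τs, mul_assoc]
  have hyr : r * y * r⁻¹ = y := by
    have e1 : τ * r * τ⁻¹ = r⁻¹ := hF.τr
    have e2 : τ * r = r⁻¹ * τ := by rw [← e1]; group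
    have e3 : r * τ = τ * r⁻¹ := by
      rw [← mul_right_inj r⁻¹, inv_mul_cancel_left, ← mul_assoc, ← e2, mul_inv_cancel_right]
    calc r * y * r⁻¹ = (r * τ) * τ * r⁻¹ := by rw [hy]; group
      _ = τ * (r⁻¹ * τ) * r⁻¹ := by rw [e3]; group
      _ = τ * (τ * r) * r⁻¹ := by rw [e2]
      _ = y := by rw [hy]; group
  refine g25_red h6 hπ hF.s3 ?_
  intro R φ hR x hx hxs
  have hRK : R ≤ Kt π .v := hR.le_Kt
  have hxK : x ∈ Kt π .v := hRK hx
  -- the values of homomorphisms at elements commuting with `s`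
  have hfix : ∀ {X : Subgroup G} {M : Type} [AddCommGroup M] [Module RG M] {ψ : G → M},
      HomOn π X ψ → ∀ z ∈ X, z * s = s * z → act gs (ψ z) = ψ z := by
    intro X M _ _ ψ hψ z hz hzs
    rw [← hF.πs, ← hψ.conj s z hz, ← hzs, mul_inv_cancel_right]
  set c := ⁅x, y⁆ with hc
  have hcA : c ∈ A := hcomA x hxK y hyT
  have hcs : c * s = s * c := by
    rw [hc, commutatorElement_def]
    have e1 : s * x * s⁻¹ = x := by rw [← hxs, mul_inv_cancel_right]
    have e2 : s * y * s⁻¹ = y := by rw [← hys, mul_inv_cancel_right]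
    have e3 : s * (x * y * x⁻¹ * y⁻¹) * s⁻¹ = x * y * x⁻¹ * y⁻¹ := by
      calc s * (x * y * x⁻¹ * y⁻¹) * s⁻¹
          = (s * x * s⁻¹) * (s * y * s⁻¹) * (s * x * s⁻¹)⁻¹ * (s * y * s⁻¹)⁻¹ := by group
        _ = _ := by rw [e1, e2]
    exact (mul_inv_eq_iff_eq_mul.1 e3).symm
  -- the norm
  have hr2y : r ^ 2 * y * (r ^ 2)⁻¹ = y := by
    calc r ^ 2 * y * (r ^ 2)⁻¹ = r * (r * y * r⁻¹) * r⁻¹ := by rw [pow_two]; group
      _ = y := by rw [hyr, hyr]
  have hcr : r * c * r⁻¹ = ⁅r * x * r⁻¹, y⁆ := by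
    rw [hc, commutatorElement_def, commutatorElement_def]
    calc r * (x * y * x⁻¹ * y⁻¹) * r⁻¹
        = (r * x * r⁻¹) * (r * y * r⁻¹) * (r * x * r⁻¹)⁻¹ * (r * y * r⁻¹)⁻¹ := by group
      _ = _ := by rw [hyr]
  have hcr2 : r ^ 2 * c * (r ^ 2)⁻¹ = ⁅r ^ 2 * x * (r ^ 2)⁻¹, y⁆ := by
    rw [hc, commutatorElement_def, commutatorElement_def]
    calc r ^ 2 * (x * y * x⁻¹ * y⁻¹) * (r ^ 2)⁻¹
        = (r ^ 2 * x * (r ^ 2)⁻¹) * (r ^ 2 * y * (r ^ 2)⁻¹) * (r ^ 2 * x * (r ^ 2)⁻¹)⁻¹ *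
            (r ^ 2 * y * (r ^ 2)⁻¹)⁻¹ := by group
      _ = _ := by rw [hr2y]
  have hx1 : r * x * r⁻¹ ∈ Kt π .v := hvn.conj_mem x hxK r
  have hx2 : r ^ 2 * x * (r ^ 2)⁻¹ ∈ Kt π .v := hvn.conj_mem x hxK _
  have hn : x * (r * x * r⁻¹) * (r ^ 2 * x * (r ^ 2)⁻¹) ∈ rjT π .v (Kt π .v) ⊥ := by
    refine ⟨(Kt π .v).mul_mem ((Kt π .v).mul_mem hxK hx1) hx2, ?_⟩
    intro ψ hψ _
    have hf := hfix hψ x hxK hxs
    rw [hψ.mul _ ((Kt π .v).mul_mem hxK hx1) _ hx2, hψ.mul _ hxK _ hx1, hψ.conj r x hxK,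
      hψ.conj (r ^ 2) x hxK, map_pow, hF.πr]
    rw [act_MV] at hf
    rw [act_MV, act_MV]
    exact g25_V1 (ψ x) hf
  have hnorm : c * (r * c * r⁻¹) * (r ^ 2 * c * (r ^ 2)⁻¹) = 1 := by
    rw [hcr, hcr2, hc, ← hcomhom x hxK _ hx1, ← hcomhom _ ((Kt π .v).mul_mem hxK hx1) _ hx2]
    rw [commutatorElement_eq_one_iff_mul_comm]
    exact st0.cl _ hn y hyT
  -- the values of homomorphisms to `V*`
  have hrad : ∀ z ∈ R, φ z = 0 → z ∈ rjT π .v (Kt π .v) ⊥ := by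
    intro z hz hz0
    refine ⟨hRK hz, fun θ hθ _ => ?_⟩
    rcases h7 G π hπ R .v φ hR .v θ (hθ.mono hRK) with h | ⟨he, h⟩
    · exact h z hz
    · have h8 := h z hz
      rw [h8, hz0]
  have hTR : ⁅T, R⁆ ≤ A := by
    rw [Subgroup.commutator_le]
    intro t ht z hz
    have h9 := A.inv_mem (hcomA z (hRK hz) t ht)
    rwa [commutatorElement_inv] at h9
  have hclam : ∀ lam : G → Md .d, HomOn π A lam → lam c = 0 := by
    intro lam hlam
    have hlyx : lam c = lam ⁅y, x⁆ := by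
      rw [hc, ← hlam.map_inv hcA, hc, commutatorElement_inv]
    rw [hlyx]
    rcases h5 G π hπ T R .v φ hTn hTk hR .d lam (hlam.mono hTR) (by
      intro w hw z hz hz0
      have e : ⁅w, z⁆ = 1 := by
        rw [commutatorElement_eq_one_iff_mul_comm]
        exact (st0.cl z (hrad z hz hz0) w hw).symm
      rw [e]
      exact hlam.map_one) with h | ⟨a, m, θ, hm, hθ, hne, h⟩
    · exact h y hyT x hx
    · cases hm
      -- `a = .l`
      have hθC : ∀ w ∈ C, θ w = 0 := by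
        intro w hw
        apply g25_perf
        intro v
        obtain ⟨z, hz, rfl⟩ := hR.surj v
        have h10 := h w ((le_sup_right : C ≤ T) hw) z hz
        have e : ⁅w, z⁆ = 1 := by
          rw [commutatorElement_eq_one_iff_mul_comm]
          exact ((mem_CK.1 hw).1 z (hRK hz)).symm
        rw [e, hlam.map_one] at h10
        exact h10.symm
      rw [h y hyT x hx]
      rcases hyψ θ hθ hθC with h11 | h11
      · rw [h11]
        exact g25_zero _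
      · rw [h11]
        have hf := hfix hR.toHomOn x hx hxs
        rw [act_MV] at hf
        exact g25_V2 _ hf
  have hcd : c ∈ rjT π .d A ⊥ := ⟨hcA, fun lam hlam _ => hclam lam hlam⟩
  have hrn : (rjT π .d A ⊥).Normal := rjT_normal π .d hAn ⊥
  -- `c` commutes with `r`
  have hcrc : r * c * r⁻¹ = c := by
    have hm : r * c * r⁻¹ * c⁻¹ ∈ rjT π .d A ⊥ :=
      Subgroup.mul_mem _ (hrn.conj_mem c hcd r) (Subgroup.inv_mem _ hcd)
    have h12 := hM _ hm (by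
      intro ψ hψ _
      have hf := hfix hψ c hcd hcs
      rw [hψ.map_mul_inv (hrn.conj_mem c hcd r) hcd, hψ.conj r c hcd, hF.πr]
      rw [act_ML] at hf
      rw [act_ML, g25_L _ hf]
      exact add_self _)
    rw [Subgroup.mem_bot, mul_inv_eq_one] at h12
    exact h12
  have hcr2c : r ^ 2 * c * (r ^ 2)⁻¹ = c := by
    calc r ^ 2 * c * (r ^ 2)⁻¹ = r * (r * c * r⁻¹) * r⁻¹ := by rw [pow_two]; group
      _ = c := by rw [hcrc, hcrc]
  rw [hcrc, hcr2c, hA2 c hcA, one_mul] at hnorm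
  rw [hc, commutatorElement_eq_one_iff_mul_comm] at hnorm
  exact hnorm.symm

end Pool.Agent.A8
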