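import Pool.Agent.Helper43.A8.Flag

/-!
# A8-M04: types 000 and 101 (helper43)

The translates of the Hecke eigenvector are indexed by the 315 flags; the relation lists below
combine pencil relations and sums over orbits of elements of order 15 (zero by `Free15`) to the
vector itself.
-/

set_option autoImplicit false

namespace Pool.Agent.A8

/-- relations for the type `(0, 0, 0)` -/
def bHV000L : List (ℕ × List ℕ × List ℕ) :=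
  [(0, [], []), (1, [], []), (0, [], [3]), (0, [], [4]), (1, [], [5]), (2, [], [5]),
   (1, [], [0, 3]), (0, [], [1, 4]), (2, [], [1, 4]), (1, [], [2, 5]), (2, [], [4, 3]),
   (1, [], [5, 4]), (1, [], [0, 3, 4]), (2, [], [1, 4, 3]), (2, [], [1, 4, 5]),
   (1, [], [2, 5, 4]), (0, [], [3, 1, 4]), (2, [], [3, 1, 4]), (2, [], [3, 4, 5]),
   (1, [], [4, 0, 3]), (2, [], [4, 0, 3]), (1, [], [4, 3, 5]), (0, [], [5, 1, 4]),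
   (0, [], [0, 3, 1, 4]), (2, [], [0, 3, 4, 5]), (0, [], [1, 2, 5, 4]), (0, [], [1, 4, 2, 5]),
   (1, [], [1, 4, 3, 5]), (0, [], [3, 1, 4, 3]), (2, [], [3, 1, 4, 5]), (1, [], [3, 4, 2, 5]),
   (2, [], [4, 0, 3, 4]), (2, [], [4, 0, 3, 5]), (2, [], [0, 3, 1, 4, 3]),
   (1, [], [0, 3, 4, 2, 5]), (2, [], [0, 4, 0, 3, 4]), (0, [], [1, 2, 5, 4, 3]),
   (1, [], [1, 4, 2, 3, 5]), (1, [], [1, 4, 3, 5, 4]), (0, [], [2, 3, 1, 4, 5]),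
   (1, [], [3, 4, 2, 5, 4]), (1, [], [4, 0, 2, 3, 5]), (2, [], [4, 0, 3, 4, 5]),
   (1, [], [0, 3, 1, 4, 3, 5]), (0, [], [0, 3, 4, 2, 5, 4]), (1, [], [0, 4, 0, 3, 4, 5]),
   (1, [], [1, 4, 2, 3, 5, 4]), (0, [], [1, 4, 3, 5, 1, 4]), (1, [], [2, 3, 1, 4, 3, 5]),
   (0, [], [2, 3, 4, 2, 5, 4]), (1, [], [2, 4, 0, 3, 4, 5]), (1, [], [4, 0, 2, 3, 5, 4]),
   (0, [], [0, 4, 0, 3, 4, 5, 4]), (0, [], [1, 0, 4, 2, 3, 5, 4]),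
   (0, [], [1, 4, 3, 5, 1, 4, 3]), (0, [], [2, 4, 0, 3, 4, 5, 4]),
   (1, [], [1, 0, 4, 2, 3, 5, 4, 3]), (3, [], [])]

/-- type 000 does not occur -/
theorem bHV000 : S_HV000 := by
  intro X _ _ hX w
  exact Flag.kill ![false, false, false] (fun i => false) (by decide) bHV000L (by decide +kernel) hX w

/-- relations for the type `(1, 0, 1)` -/
def bHV101L : List (ℕ × List ℕ × List ℕ) :=
  [(1, [], []), (1, [], [4]), (1, [], [0, 3]), (0, [], [3, 4]), (2, [], [3, 4]),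
   (0, [], [4, 5]), (1, [], [4, 5]), (1, [], [5, 4]), (2, [], [5, 4]), (1, [], [0, 3, 4]),
   (1, [], [2, 3, 5]), (2, [], [3, 4, 3]), (0, [], [3, 4, 5]), (0, [], [3, 5, 4]),
   (2, [], [3, 5, 4]), (2, [], [4, 0, 3]), (0, [], [5, 1, 4]), (2, [], [0, 3, 1, 4]),
   (2, [], [1, 3, 4, 3]), (1, [], [1, 4, 3, 5]), (0, [], [1, 4, 5, 4]), (0, [], [2, 3, 5, 4]),
   (1, [], [2, 3, 5, 4]), (1, [], [2, 5, 4, 3]), (2, [], [2, 5, 4, 3]), (1, [], [3, 1, 4, 3]),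
   (2, [], [3, 1, 4, 3]), (1, [], [3, 4, 2, 5]), (1, [], [3, 4, 5, 4]), (0, [], [3, 5, 1, 4]),
   (2, [], [3, 5, 1, 4]), (2, [], [3, 5, 4, 3]), (0, [], [4, 2, 5, 4]), (0, [], [4, 3, 5, 4]),
   (1, [], [4, 3, 5, 4]), (1, [], [5, 1, 4, 3]), (0, [], [5, 1, 4, 5]),
   (2, [], [0, 1, 3, 4, 3]), (0, [], [0, 3, 4, 5, 4]), (1, [], [0, 3, 4, 5, 4]),
   (0, [], [0, 3, 5, 1, 4]), (2, [], [0, 3, 5, 1, 4]), (1, [], [1, 2, 5, 4, 3]),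
   (2, [], [1, 2, 5, 4, 3]), (0, [], [1, 4, 3, 5, 4]), (1, [], [1, 4, 5, 4, 3]),
   (0, [], [2, 3, 4, 5, 4]), (1, [], [2, 4, 5, 4, 3]), (1, [], [3, 1, 4, 3, 5]),
   (0, [], [3, 1, 4, 5, 4]), (1, [], [3, 4, 2, 3, 5]), (1, [], [3, 4, 2, 5, 4]),
   (0, [], [3, 4, 3, 5, 4]), (1, [], [3, 4, 3, 5, 4]), (1, [], [3, 4, 5, 4, 3]),
   (1, [], [3, 5, 1, 4, 3]), (0, [], [3, 5, 1, 4, 5]), (1, [], [4, 0, 2, 3, 5]),
   (0, [], [4, 0, 3, 5, 4]), (2, [], [4, 0, 3, 5, 4]), (1, [], [4, 2, 3, 5, 4]),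
   (2, [], [4, 2, 3, 5, 4]), (0, [], [4, 3, 5, 1, 4]), (1, [], [4, 3, 5, 4, 3]),
   (2, [], [4, 3, 5, 4, 3]), (1, [], [5, 1, 4, 3, 5]), (2, [], [5, 4, 0, 3, 4]),
   (0, [], [0, 1, 4, 3, 5, 4]), (1, [], [0, 1, 4, 3, 5, 4]), (0, [], [0, 2, 3, 4, 5, 4]),
   (0, [], [0, 3, 4, 2, 5, 4]), (1, [], [0, 3, 4, 2, 5, 4]), (1, [], [0, 3, 4, 5, 4, 3]),
   (2, [], [0, 3, 5, 1, 4, 3]), (0, [], [0, 3, 5, 1, 4, 5]), (1, [], [0, 4, 2, 5, 4, 3]),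
   (1, [], [0, 5, 1, 4, 3, 5]), (1, [], [1, 2, 4, 5, 4, 3]), (1, [], [1, 3, 4, 2, 3, 5]),
   (0, [], [1, 4, 2, 3, 5, 4]), (1, [], [1, 4, 2, 5, 4, 3]), (1, [], [1, 4, 3, 5, 4, 3]),
   (2, [], [1, 4, 3, 5, 4, 3]), (1, [], [1, 4, 5, 4, 0, 3]), (1, [], [2, 3, 1, 4, 3, 5]),
   (1, [], [2, 3, 4, 5, 4, 3]), (1, [], [3, 1, 4, 3, 5, 4]), (1, [], [3, 5, 1, 4, 3, 5]),
   (2, [], [4, 0, 2, 3, 5, 4]), (1, [], [4, 0, 3, 4, 5, 4]), (1, [], [4, 3, 5, 1, 4, 3]),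
   (1, [], [0, 1, 3, 4, 2, 3, 5]), (0, [], [0, 3, 1, 4, 3, 5, 4]),
   (0, [], [0, 3, 4, 2, 3, 5, 4]), (1, [], [0, 3, 4, 2, 5, 4, 3]),
   (1, [], [0, 3, 4, 5, 4, 0, 3]), (1, [], [0, 4, 2, 3, 5, 4, 3]),
   (2, [], [0, 5, 1, 4, 3, 5, 4]), (0, [], [1, 3, 4, 2, 3, 5, 4]),
   (1, [], [1, 3, 4, 2, 5, 4, 3]), (2, [], [1, 4, 5, 4, 0, 3, 4]),
   (1, [], [1, 5, 4, 0, 3, 4, 5]), (1, [], [2, 3, 1, 4, 3, 5, 4]),
   (0, [], [3, 1, 4, 3, 5, 1, 4]), (1, [], [3, 3, 4, 2, 5, 4, 3]),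
   (2, [], [5, 1, 4, 3, 5, 1, 4]), (0, [], [0, 1, 4, 3, 5, 1, 4, 5]),
   (1, [], [0, 4, 3, 4, 2, 5, 4, 3]), (3, [3], [3]), (3, [2, 5], [3]), (3, [4, 3], [3])]

/-- type 101 does not occur -/
theorem bHV101 : S_HV101 := by
  intro X _ _ hX w
  exact Flag.kill ![true, false, true] (fun i => i == 0 || i == 2) (by decide) bHV101L (by decide +kernel) hX w

end Pool.Agent.A8
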